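import Pool.Agent.H369.TH.Stm

/-! TH13: restriction to a circle, leading terms. -/

set_option autoImplicit false
set_option linter.unusedSectionVars false

namespace Pool.Agent.H687.TH

open Pool.Agent.H369.TH

variable {Γ K : Type} [AddCommGroup Γ] [LinearOrder Γ] [IsOrderedAddMonoid Γ] [Field K]

/-! ### the expansion at a point -/

theorem xiU_val (ξ : Kˣ) : ((xiU ξ : (PowerSeries K)ˣ) : PowerSeries K) =
    PowerSeries.C (ξ : K) * (1 + PowerSeries.X) := IsUnit.unit_spec _

theorem bs_one : (1 + PowerSeries.X : PowerSeries K) = PowerSeries.binomialSeries K (1 : ℤ) := by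
  have := PowerSeries.binomialSeries_nat (R := ℤ) (A := K) 1
  rw [pow_one] at this
  rw [← this]
  norm_num

theorem xiU_nat (ξ : Kˣ) (n : ℕ) : (((xiU ξ) ^ n : (PowerSeries K)ˣ) : PowerSeries K) =
    PowerSeries.C ((ξ : K) ^ n) * PowerSeries.binomialSeries K (n : ℤ) := by
  rw [PowerSeries.binomialSeries_nat, Units.val_pow_eq_pow_val, xiU_val, mul_pow, map_pow]

theorem xiU_zpow (ξ : Kˣ) (m : ℤ) : (((xiU ξ) ^ m : (PowerSeries K)ˣ) : PowerSeries K) =
    PowerSeries.C ((ξ ^ m : Kˣ) : K) * PowerSeries.binomialSeries K m := by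
  rcases Int.eq_nat_or_neg m with ⟨n, rfl | rfl⟩
  · rw [zpow_natCast, xiU_nat, zpow_natCast, Units.val_pow_eq_pow_val]
  · have h1 := xiU_nat ξ n
    have h2 : (PowerSeries.C ((ξ ^ (-(n : ℤ)) : Kˣ) : K) *
        PowerSeries.binomialSeries K (-(n : ℤ))) *
        (((xiU ξ) ^ n : (PowerSeries K)ˣ) : PowerSeries K) = 1 := by
      rw [h1]
      have e1 : PowerSeries.binomialSeries K (-(n : ℤ)) * PowerSeries.binomialSeries K (n : ℤ) =
          1 := by
        rw [← PowerSeries.binomialSeries_add, neg_add_cancel, PowerSeries.binomialSeries_zero]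
      have e2 : ((ξ ^ (-(n : ℤ)) : Kˣ) : K) * (ξ : K) ^ n = 1 := by
        rw [← Units.val_pow_eq_pow_val, ← Units.val_mul, zpow_neg, zpow_natCast, inv_mul_cancel,
          Units.val_one]
      calc _ = PowerSeries.C (((ξ ^ (-(n : ℤ)) : Kˣ) : K) * (ξ : K) ^ n) *
            (PowerSeries.binomialSeries K (-(n : ℤ)) * PowerSeries.binomialSeries K (n : ℤ)) := by
              rw [map_mul]; ring
        _ = 1 := by rw [e1, e2, map_one, one_mul]
    rw [zpow_neg, zpow_natCast]
    exact Units.inv_eq_of_mul_eq_one_left h2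

/-- the coefficients of the expansion of a Laurent polynomial at a point -/
theorem coeff_ph (ξ : Kˣ) (n : ℕ) (p : LP K) : PowerSeries.coeff n (ph ξ p) =
    p.coeff.sum fun m c => c * ((Ring.choose m n : ℤ) : K) * ((ξ ^ m : Kˣ) : K) := by
  unfold ph
  rw [RingHom.coe_coe, AddMonoidAlgebra.lift_apply, Finsupp.sum, map_sum, Finsupp.sum]
  refine Finset.sum_congr rfl fun m _ => ?_
  rw [PowerSeries.coeff_smul]
  have h1 : ((Units.coeHom (PowerSeries K)).comp (zpowersHom (PowerSeries K)ˣ (xiU ξ)))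
      (Multiplicative.ofAdd m) = (((xiU ξ) ^ m : (PowerSeries K)ˣ) : PowerSeries K) := rfl
  rw [h1, xiU_zpow, PowerSeries.coeff_C_mul, PowerSeries.binomialSeries_coeff]
  simp only [smul_eq_mul, zsmul_eq_mul, mul_one]
  ring

/-! ### lowest terms -/

/-- the coefficients below `a` are zero, the coefficient of `t^a` is `L` -/
def Low (u : HL Γ K) (a : Γ) (L : LP K) : Prop := (∀ b < a, u.coeff b = 0) ∧ u.coeff a = L

theorem Low.mul {u v : HL Γ K} {a b : Γ} {L M : LP K} (hu : Low u a L) (hv : Low v b M) :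
    Low (u * v) (a + b) (L * M) := by
  constructor
  · intro c hc
    rw [HahnSeries.coeff_mul]
    refine Finset.sum_eq_zero fun ij hij => ?_
    rw [Finset.mem_antidiagonal] at hij
    obtain ⟨h1, h2, h3⟩ := hij
    by_cases h4 : ij.1 < a
    · rw [hu.1 _ h4, zero_mul]
    · by_cases h5 : ij.2 < b
      · rw [hv.1 _ h5, mul_zero]
      · exfalso
        have := add_le_add (not_lt.1 h4) (not_lt.1 h5)
        rw [h3] at this
        exact absurd hc (not_lt.2 this)
  · rw [HahnSeries.coeff_mul, Finset.sum_eq_single (a, b)]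
    · rw [hu.2, hv.2]
    · intro ij hij hne
      rw [Finset.mem_antidiagonal] at hij
      obtain ⟨h1, h2, h3⟩ := hij
      by_cases h4 : ij.1 < a
      · rw [hu.1 _ h4, zero_mul]
      · by_cases h5 : ij.2 < b
        · rw [hv.1 _ h5, mul_zero]
        · exfalso
          apply hne
          have h6 := not_lt.1 h4
          have h7 := not_lt.1 h5
          have h8 : ij.1 = a := by
            refine le_antisymm ?_ h6
            by_contra hlt
            have := add_lt_add_of_lt_of_le (not_le.1 hlt) h7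
            rw [h3] at this
            exact lt_irrefl _ this
          have h9 : ij.2 = b := by
            rw [h8] at h3
            exact add_left_cancel h3
          exact Prod.ext h8 h9
    · intro hnot
      by_cases h4 : u.coeff a = 0
      · rw [h4, zero_mul]
      · by_cases h5 : v.coeff b = 0
        · rw [h5, mul_zero]
        · exact absurd (Finset.mem_antidiagonal.2 ⟨h4, h5, rfl⟩) hnot

theorem Low.one : Low (1 : HL Γ K) 0 1 := by
  constructor
  · intro b hb
    rw [HahnSeries.coeff_one, if_neg hb.ne]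
  · rw [HahnSeries.coeff_one, if_pos rfl]

theorem Low.pow {u : HL Γ K} {a : Γ} {L : LP K} (hu : Low u a L) (n : ℕ) :
    Low (u ^ n) (n • a) (L ^ n) := by
  induction n with
  | zero =>
    rw [pow_zero, pow_zero, zero_smul]
    exact Low.one
  | succ n ih =>
    rw [pow_succ, pow_succ, succ_nsmul]
    exact ih.mul hu

theorem single_pow' (c : K) (n : ℕ) : (AddMonoidAlgebra.single (1 : ℤ) c : LP K) ^ n =
    AddMonoidAlgebra.single (n : ℤ) (c ^ n) := by
  rw [AddMonoidAlgebra.single_pow]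
  simp

theorem coeff_single_mul' (c : K) (n : ℤ) (M : LP K) (a : ℤ) :
    ((AddMonoidAlgebra.single n c : LP K) * M).coeff a = c * M.coeff (a - n) := by
  have h : a = n + (a - n) := by ring
  conv_lhs => rw [h]
  rw [AddMonoidAlgebra.coeff_single_mul_add]

/-- a nonzero Hahn series has a lowest term -/
theorem exists_low {v : HL Γ K} (hv : v ≠ 0) : ∃ o M, Low v o M ∧ M ≠ 0 :=
  ⟨v.order, v.coeff v.order, ⟨fun _ hb => HahnSeries.coeff_eq_zero_of_lt_order hb, rfl⟩,
    fun h => hv (HahnSeries.coeff_order_eq_zero.1 h)⟩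

/-- the lowest term of a factor -/
theorem low_factor {u v : HL Γ K} {d a₀ : Γ} {e : ℤ} {c : K} (hc : c ≠ 0)
    (hu : Low u d (AddMonoidAlgebra.single e c)) (h0 : ∀ b < a₀, (u * v).coeff b = 0) :
    (∀ b < a₀ - d, v.coeff b = 0) ∧ ∀ a : ℤ, cf (u * v) a₀ a = c * cf v (a₀ - d) (a - e) := by
  have h1 : ∀ b < a₀ - d, v.coeff b = 0 := by
    by_contra hcon
    push Not at hcon
    obtain ⟨b, hb, hb'⟩ := hcon
    have hv : v ≠ 0 := by
      rintro rfl
      exact hb' HahnSeries.coeff_zero
    obtain ⟨o, M, hM, hM0⟩ := exists_low hv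
    have ho : o ≤ b := by
      by_contra hlt
      exact hb' (hM.1 b (not_le.1 hlt))
    have h2 := hu.mul hM
    have h3 : d + o < a₀ := by
      have := add_lt_add_right (lt_of_le_of_lt ho hb) d
      rwa [add_sub_cancel] at this
    rw [Low, h0 _ h3] at h2
    obtain ⟨m, hm⟩ : ∃ m, M.coeff m ≠ 0 := by
      by_contra hcon
      push Not at hcon
      apply hM0
      ext m
      rw [hcon m]
      rfl
    have h4 : ((AddMonoidAlgebra.single e c : LP K) * M).coeff (e + m) =
        (0 : LP K).coeff (e + m) := by rw [← h2.2]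
    rw [coeff_single_mul'] at h4
    have h5 : e + m - e = m := by ring
    rw [h5] at h4
    exact mul_ne_zero hc hm h4
  refine ⟨h1, fun a => ?_⟩
  have h2 := hu.mul (⟨h1, rfl⟩ : Low v (a₀ - d) (v.coeff (a₀ - d)))
  rw [add_sub_cancel] at h2
  unfold cf
  rw [h2.2, coeff_single_mul']

/-! ### entire functions -/

theorem ent_zero {f : Ent Γ K} {s : Γ} (h : f.1 s = 0) : f = 0 := by
  apply Subtype.ext
  funext s'
  apply cf_ext
  intro a m
  have h1 := Ent.rel f s' a m
  have h2 := Ent.rel f s (a - m • s' + m • s) m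
  rw [add_sub_cancel_right] at h2
  rw [h1, ← h2, h]
  show cf (0 : HL Γ K) _ _ = cf (0 : HL Γ K) _ _
  rw [cf_zero, cf_zero]

/-- the value on the circle `s` -/
noncomputable def ev (s : Γ) : Ent Γ K →+* HL Γ K :=
  (Pi.evalRingHom (fun _ => HL Γ K) s).comp (Ent Γ K).subtype

theorem ev_apply (s : Γ) (f : Ent Γ K) : ev s f = f.1 s := rfl

theorem v_mul (a b : Pt Γ K) : (a * b).v = a.v + b.v := rfl

theorem v_ng (a : Pt Γ K) : (ng a).v = a.v := by
  unfold ng
  rw [v_mul]
  show Multiplicative.toAdd (1 : Multiplicative Γ) + a.v = a.v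
  rw [toAdd_one, zero_add]

theorem v_zpow (a : Pt Γ K) (k : ℤ) : (a ^ k).v = k • a.v := rfl

theorem tau (h2 : S_win) (h3 : S_lead) : S_tau := by
  classical
  intro Γ K _ _ _ _ _ P hP N J γ C₀ x0 x1 τ hx0 hx0' hx1 hx1' m p hp y A hA0 hAJ hA hnode
  -- the lowest exponent
  set S : Finset ℕ := (Finset.range (J + 1)).filter fun k => A k ≠ 0 with hS
  have hSne : S.Nonempty := by
    obtain ⟨k, hk⟩ := hA0
    refine ⟨k, ?_⟩
    rw [hS, Finset.mem_filter, Finset.mem_range]
    refine ⟨?_, hk⟩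
    by_contra hlt
    exact hk (hAJ k (by omega))
  obtain ⟨k₀, hk₀, hmin⟩ := Finset.exists_min_image S (fun k => ((A k).1 τ).order) hSne
  set a₀ : Γ := ((A k₀).1 τ).order with ha₀
  have hne : ∀ k, A k ≠ 0 → (A k).1 τ ≠ 0 := fun k hk h => hk (ent_zero h)
  have hlow : ∀ k, ∀ b < a₀, ((A k).1 τ).coeff b = 0 := by
    intro k b hb
    by_cases hk : k ∈ S
    · exact HahnSeries.coeff_eq_zero_of_lt_order (lt_of_lt_of_le hb (hmin k hk))
    · have h0 : A k = 0 := by
        by_contra hne
        by_cases hkJ : k ≤ J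
        · exact hk (by rw [hS, Finset.mem_filter, Finset.mem_range]; exact ⟨by omega, hne⟩)
        · exact hne (hAJ k (by omega))
      rw [h0]
      exact HahnSeries.coeff_zero
  -- the Laurent polynomial
  set U : Finset ℤ := (Finset.range (J + 1)).biUnion fun k =>
    (((A k).1 τ).coeff a₀).coeff.support with hU
  set f : (ℤ × ℕ) →₀ K := Finsupp.onFinset (U ×ˢ Finset.range (J + 1))
    (fun q => cf ((A q.2).1 τ) a₀ q.1) (by
      rintro ⟨a, k⟩ hq
      simp only at hq
      have hkJ : k < J + 1 := by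
        by_contra hlt
        apply hq
        rw [hAJ k (by omega)]
        exact cf_zero a₀ a
      rw [Finset.mem_product, hU, Finset.mem_biUnion, Finset.mem_range]
      exact ⟨⟨k, Finset.mem_range.2 hkJ, Finsupp.mem_support_iff.2 hq⟩, hkJ⟩) with hf
  have hfa : ∀ q, f q = cf ((A q.2).1 τ) a₀ q.1 := fun q => rfl
  refine ⟨f, ?_, ?_, ?_⟩
  · intro h0
    have hk := (Finset.mem_filter.1 hk₀).2
    have h4 : ((A k₀).1 τ).coeff a₀ ≠ 0 := fun h => hne k₀ hk (HahnSeries.coeff_order_eq_zero.1 h)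
    apply h4
    ext a
    have h5 : f (a, k₀) = 0 := by rw [h0]; rfl
    rw [hfa] at h5
    exact h5
  · intro a k hak
    rw [hfa] at hak
    simp only at hak
    have hAk : A k ≠ 0 := by
      intro h
      apply hak
      rw [h]
      exact cf_zero a₀ a
    have hkJ : k ≤ J := by
      by_contra hlt
      exact hAk (hAJ k (by omega))
    have hkN : 2 * k ≤ N := by
      by_contra hlt
      exact hAk ((hA k hkJ).1 (by omega))
    refine ⟨hkJ, hkN, ?_⟩
    obtain ⟨Ψ, hΨ, hAΨ⟩ := (hA k hkJ).2 hkN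
    set e : ℕ := k + J - jm N J k with he
    -- the lowest terms
    have l0 := ((h3 Γ K P hP x0 τ).1 hx0 hx0')
    have l1 := ((h3 Γ K P hP x1 τ).2 hx1 hx1')
    have L0 : Low ((theta P x0).1 τ) 0 (AddMonoidAlgebra.single 0 1) := l0
    have L1 : Low ((theta P x1).1 τ) (τ - x1.v)
      (AddMonoidAlgebra.single 1 (-((x1.2⁻¹ : Kˣ) : K))) := l1
    have L2 := (L0.pow k).mul (L1.pow e)
    rw [smul_zero, zero_add, single_pow'] at L2
    have e1 : (AddMonoidAlgebra.single (0 : ℤ) (1 : K) : LP K) = 1 := rfl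
    rw [e1, one_pow, one_mul] at L2
    have hc : (-((x1.2⁻¹ : Kˣ) : K)) ^ e ≠ 0 := pow_ne_zero _ (neg_ne_zero.2 (Units.ne_zero _))
    have e2 : (A k).1 τ = ((theta P x0).1 τ ^ k * (theta P x1).1 τ ^ e) * Ψ.1 τ := by
      rw [hAΨ]
      show ev τ (theta P x0 ^ k * theta P x1 ^ e * Ψ) =
        ev τ (theta P x0) ^ k * ev τ (theta P x1) ^ e * ev τ Ψ
      rw [map_mul (ev τ) (theta P x0 ^ k * theta P x1 ^ e) Ψ,
        map_mul (ev τ) (theta P x0 ^ k) (theta P x1 ^ e), map_pow, map_pow]
    have hl := hlow k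
    rw [e2] at hl hak
    obtain ⟨m1, m2⟩ := low_factor hc L2 hl
    rw [m2 a] at hak
    have m3 := right_ne_zero_of_mul hak
    have m4 := h2 Γ K P _ _ Ψ hΨ τ _ m1 _ m3
    rw [v_mul, v_mul, v_zpow, v_zpow, v_ng, v_ng, sub_smul a (e : ℤ) P] at m4
    obtain ⟨m5, m6⟩ := m4
    have e3 : C₀.v + -(k : ℤ) • x0.v + ((jm N J k : ℤ) - k) • x1.v =
        C₀.v - (k : ℤ) • x0.v + ((jm N J k : ℤ) - k) • x1.v := by
      rw [neg_smul, ← sub_eq_add_neg]
    rw [e3] at m5 m6
    constructor
    · exact le_sub_iff_add_le.1 m5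
    · have := sub_le_iff_le_add.1 m6
      refine this.trans (le_of_eq ?_)
      abel
  · intro i a' b' hab
    have h4 := congrArg (fun z : HG Γ K => z.coeff a₀) (hnode i a' b' hab)
    simp only [HahnSeries.coeff_zero] at h4
    rw [HahnSeries.coeff_sum] at h4
    unfold ex2
    rw [hf, Finsupp.onFinset_sum]
    · rw [Finset.sum_product_right, ← h4]
      refine Finset.sum_congr rfl fun k hk => ?_
      have e1 : ((k.choose b' : HG Γ K) * (HahnSeries.C (y i)) ^ (k - b')) =
          HahnSeries.C ((k.choose b' : K) * y i ^ (k - b')) := by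
        rw [map_mul, map_pow, map_natCast]
      rw [e1, HahnSeries.C_mul_eq_smul, HahnSeries.coeff_smul, coeff_T, hp i, coeff_ph,
        Finsupp.sum_of_support_subset (s := U), smul_eq_mul, Finset.mul_sum]
      · refine Finset.sum_congr rfl fun a _ => ?_
        show cf ((A k).1 τ) a₀ a * _ * _ * _ * _ = _ * (cf ((A k).1 τ) a₀ a * _ * _)
        ring
      · intro a ha
        rw [hU, Finset.mem_biUnion]
        exact ⟨k, hk, ha⟩
      · intro a _
        rw [zero_mul, zero_mul]
    · intro q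
      rw [zero_mul, zero_mul, zero_mul, zero_mul]

end Pool.Agent.H687.TH
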